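import Pool.Agent.H914R2.HLam

/-!
# Powers of the operator `Λ`
-/

set_option autoImplicit false
set_option linter.unusedSectionVars false

open Module

namespace Pool.Agent.Q55.Gb

open Pool.Agent.H914

variable {K : Type*} [Field K] {V : Type*} [AddCommGroup V] [Module K V]
  {gr : ℕ → Submodule K V} {n : ℕ} {L Lam : Module.End K V}

section

variable (hL : IsHom gr 2 L) (hbd : ∀ i, 2 * n + 1 ≤ i → gr i = ⊥)
  (hHL : HardLef gr n L) (hLam : IsLam gr n L Lam)

include hL hbd hHL hLam

lemma lam_L {r e : ℕ} (her : e + r ≤ n) {x : V} (hx : x ∈ gr e) :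
    (Lam ^ r) ((L ^ r) x) = x := by
  have key := lef_induction hL hbd hHL
    (p := fun i a => ∀ c, i + c ≤ n → (Lam ^ c) ((L ^ c) a) = a)
    (by intro i a b ha hb c hc; rw [map_add, map_add, ha c hc, hb c hc])
    (by
      intro i hi a ha hp j c hc
      rw [← Module.End.mul_apply (L ^ c), ← pow_add,
        lam_pow hLam hi ha hp (by omega) c (by omega), show c + j - c = j by omega])
  have := key e (by omega) x hx 0 r (by omega)
  simpa using this

lemma L_lam {r e : ℕ} (her : n + r ≤ e) {x : V} (hx : x ∈ gr e) :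
    (L ^ r) ((Lam ^ r) x) = x := by
  have key := lef_induction hL hbd hHL
    (p := fun i a => ∀ c, n + c ≤ i → (L ^ c) ((Lam ^ c) a) = a)
    (by intro i a b ha hb c hc; rw [map_add, map_add, ha c hc, hb c hc])
    (by
      intro i hi a ha hp j c hc
      by_cases hj : n - i < j
      · rw [L_pow_gt hp hj, map_zero, map_zero]
      rw [lam_pow hLam hi ha hp (by omega) c (by omega), ← Module.End.mul_apply, ← pow_add,
        show c + (j - c) = j by omega])
  by_cases h2 : e ≤ 2 * n
  · obtain ⟨b, hb, rfl⟩ := (hHL (2 * n - e) (by omega)).2 x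
      (by rwa [show 2 * n - (2 * n - e) = e by omega])
    exact key (2 * n - e) (by omega) b hb (n - (2 * n - e)) r (by omega)
  · rw [hbd e (by omega), Submodule.mem_bot] at hx
    rw [hx, map_zero, map_zero]

/-- The operator `Λ` is self-adjoint. -/
lemma lam_adj (h : DirectSum.IsInternal gr) {B : V →ₗ[K] V →ₗ[K] K}
    (hself : ∀ a b, B (L a) b = B a (L b))
    (hdeg : ∀ i j, ∀ a ∈ gr i, ∀ b ∈ gr j, i + j ≠ 2 * n → B a b = 0) (a b : V) :
    B (Lam a) b = B a (Lam b) := by
  have hpow : ∀ (k : ℕ) (a b : V), B ((L ^ k) a) b = B a ((L ^ k) b) := by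
    intro k
    induction k with
    | zero => intro a b; simp
    | succ k ih =>
      intro a b
      rw [pow_succ, Module.End.mul_apply, ih, hself, ← Module.End.mul_apply L, ← pow_succ',
        ← pow_succ]
  refine lef_induction' h hL hbd hHL (p := fun a => B (Lam a) b = B a (Lam b)) ?_ ?_ a
  · intro a a' ha ha'
    rw [map_add, map_add, LinearMap.add_apply, map_add, LinearMap.add_apply, ha, ha']
  intro i hi u hu hp j
  refine lef_induction' h hL hbd hHL
    (p := fun b => B (Lam ((L ^ j) u)) b = B ((L ^ j) u) (Lam b)) ?_ ?_ b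
  · intro b b' hb hb'
    rw [map_add, map_add, map_add, hb, hb']
  intro i' hi' u' hu' hp' j'
  by_cases hj : n - i < j
  · rw [L_pow_gt hp hj, map_zero, map_zero]; simp
  by_cases hj' : n - i' < j'
  · rw [L_pow_gt hp' hj', map_zero, map_zero]; simp
  rcases Nat.eq_zero_or_pos j with rfl | h0
  · rw [pow_zero, Module.End.one_apply, (hLam i hi u hu hp).1, map_zero, LinearMap.zero_apply]
    rcases Nat.eq_zero_or_pos j' with rfl | h0'
    · rw [pow_zero, Module.End.one_apply, (hLam i' hi' u' hu' hp').1, map_zero]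
    · obtain ⟨j', rfl⟩ := Nat.exists_eq_add_of_le' h0'
      rw [(hLam i' hi' u' hu' hp').2 j' (by omega)]
      by_cases hd : i + (i' + 2 * j') = 2 * n
      · rw [← hpow, L_pow_gt hp (by omega), map_zero, LinearMap.zero_apply]
      · exact (hdeg _ _ _ hu _ (pow_L_mem hL hu' _) hd).symm
  · obtain ⟨j, rfl⟩ := Nat.exists_eq_add_of_le' h0
    rw [(hLam i hi u hu hp).2 j (by omega)]
    rcases Nat.eq_zero_or_pos j' with rfl | h0'
    · rw [pow_zero, Module.End.one_apply, (hLam i' hi' u' hu' hp').1, map_zero, hpow]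
      by_cases hd : i + (i' + 2 * j) = 2 * n
      · rw [L_pow_gt hp' (by omega), map_zero]
      · exact hdeg _ _ _ hu _ (pow_L_mem hL hu' _) hd
    · obtain ⟨j', rfl⟩ := Nat.exists_eq_add_of_le' h0'
      rw [(hLam i' hi' u' hu' hp').2 j' (by omega), hpow, hpow, ← Module.End.mul_apply,
        ← Module.End.mul_apply, ← pow_add, ← pow_add]
      congr 2
      ring_nf

/-- The operator `Λ` and a graded operator which commutes with `L` up to a factor. -/
lemma lam_comm (h : DirectSum.IsInternal gr) {F : Module.End K V} (hF : ∀ i, ∀ x ∈ gr i, F x ∈ gr i)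
    {Q : K} (hQ : Q ≠ 0) (hFL : ∀ x, F (L x) = Q • L (F x)) (x : V) :
    Lam (F x) = Q • F (Lam x) := by
  have hpow : ∀ (j : ℕ) (a : V), F ((L ^ j) a) = Q ^ j • (L ^ j) (F a) := by
    intro j
    induction j with
    | zero => intro a; simp
    | succ j ih =>
      intro a
      rw [pow_succ', Module.End.mul_apply, hFL, ih, map_smul, smul_smul, Module.End.mul_apply,
        ← pow_succ']
  refine lef_induction' h hL hbd hHL (p := fun y => Lam (F y) = Q • F (Lam y)) ?_ ?_ x
  · intro a c ha hc
    rw [map_add, map_add, ha, hc, map_add, map_add, smul_add]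
  · intro i hi u hu hpu j
    by_cases hj : n - i < j
    · rw [L_pow_gt hpu hj, map_zero, map_zero, map_zero, smul_zero]
    · have hpu' : (L ^ (n - i + 1)) (F u) = 0 := by
        have h2 := hpow (n - i + 1) u
        rw [hpu, map_zero] at h2
        exact (smul_eq_zero.1 h2.symm).resolve_left (pow_ne_zero _ hQ)
      rcases Nat.eq_zero_or_pos j with rfl | h0
      · rw [pow_zero, Module.End.one_apply, (hLam i hi _ (hF i u hu) hpu').1,
          (hLam i hi u hu hpu).1, map_zero, smul_zero]
      · obtain ⟨j, rfl⟩ : ∃ j', j = j' + 1 := ⟨j - 1, by omega⟩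
        rw [hpow, map_smul, (hLam i hi _ (hF i u hu) hpu').2 j (by omega),
          (hLam i hi u hu hpu).2 j (by omega), hpow, smul_smul, pow_succ']

end

/-- Operators which commute up to a factor and generalised eigenspaces. -/
lemma gen_of_semicomm {F u : Module.End K V} {a : K} (h : ∀ x, F (u x) = a • u (F x)) {ν : K}
    {x : V} (hx : x ∈ F.maxGenEigenspace ν) : u x ∈ F.maxGenEigenspace (a * ν) := by
  rw [Module.End.mem_maxGenEigenspace] at hx ⊢
  obtain ⟨m, hm⟩ := hx
  refine ⟨m, ?_⟩
  have key : ∀ (m : ℕ) (x : V), ((F - (a * ν) • (1 : Module.End K V)) ^ m) (u x) =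
      a ^ m • u (((F - ν • (1 : Module.End K V)) ^ m) x) := by
    intro m
    induction m with
    | zero => intro x; simp
    | succ m ih =>
      intro x
      have h1 : (F - (a * ν) • (1 : Module.End K V)) (u x) =
          a • u ((F - ν • (1 : Module.End K V)) x) := by
        simp only [LinearMap.sub_apply, LinearMap.smul_apply, Module.End.one_apply, map_sub,
          map_smul, smul_sub, smul_smul, h]
      rw [pow_succ, Module.End.mul_apply, h1, map_smul, ih, smul_smul, ← pow_succ',
        pow_succ (F - ν • (1 : Module.End K V)), Module.End.mul_apply]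
  rw [key, hm, map_zero, smul_zero]

end Pool.Agent.Q55.Gb
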