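import Pool.Agent.Q55.Gp.Lin

/-!
# Linear algebra: the codimension of spaces of maps which do not contain a partial inverse
-/

set_option autoImplicit false
set_option linter.unusedSectionVars false

open Module

namespace Pool.Agent.Q55.Gb

open Pool.Agent.Q55.Gp

section

variable {K E F : Type*} [Field K] [AddCommGroup E] [Module K E] [Module.Finite K E]
  [AddCommGroup F] [Module K F]

lemma codim_surj {M : Submodule K E} (φ : E →ₗ[K] F) (hφ : Function.Surjective φ)
    (hM : ∀ m ∈ M, φ m = 0) : finrank K M + finrank K F ≤ finrank K E := by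
  have h1 := LinearMap.finrank_range_add_finrank_ker φ
  have h2 : finrank K M ≤ finrank K (LinearMap.ker φ) := Submodule.finrank_mono fun m hm => hM m hm
  rw [LinearMap.range_eq_top.2 hφ, finrank_top] at h1
  omega

lemma codim_surj' {M : Submodule K E} (φ : E →ₗ[K] F) (hφ : Function.Surjective φ)
    (hM : ∀ m ∈ M, φ m = 0) {x : E} (hx : x ∉ M) (hx0 : φ x = 0) :
    finrank K M + finrank K F + 1 ≤ finrank K E := by
  have h1 := LinearMap.finrank_range_add_finrank_ker φ
  have h2 : finrank K M < finrank K (LinearMap.ker φ) := by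
    apply Submodule.finrank_lt_finrank_of_lt
    refine lt_of_le_of_ne (fun m hm => hM m hm) fun h => hx ?_
    rw [h]
    exact hx0
  rw [LinearMap.range_eq_top.2 hφ, finrank_top] at h1
  omega

lemma finrank_le_sum {ι : Type*} [Fintype ι] {A : ι → Type*} [∀ i, AddCommGroup (A i)]
    [∀ i, Module K (A i)] [∀ i, Module.Finite K (A i)] (M : ∀ i, Submodule K (A i))
    (f : E →ₗ[K] ∀ i, A i) (hf : ∀ a i, f a i ∈ M i) (hinj : ∀ a, (∀ i, f a i = 0) → a = 0) :
    finrank K E ≤ ∑ i, finrank K (M i) := by
  set g : E →ₗ[K] ∀ i, M i := LinearMap.pi fun i =>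
    (LinearMap.proj i ∘ₗ f).codRestrict (M i) fun a => hf a i with hg
  have h1 : Function.Injective g := by
    refine (injective_iff_map_eq_zero _).2 fun a ha => hinj a fun i => ?_
    exact congrArg Subtype.val (congrFun ha i)
  have h2 := LinearMap.finrank_le_finrank_of_injective h1
  rwa [Module.finrank_pi_fintype] at h2

end

variable {K H : Type*} [Field K] [AddCommGroup H] [Module K H] [Module.Finite K H]

lemma ineq {a n : ℕ} (h0 : 0 < a) (h1 : a < n) : n ≤ a * (n - a) + 1 := by
  obtain ⟨b, rfl⟩ := Nat.exists_eq_add_of_lt h1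
  obtain ⟨c, rfl⟩ := Nat.exists_eq_add_of_le' h0
  rw [show c + 1 + b + 1 - (c + 1) = b + 1 by omega]
  nlinarith [Nat.zero_le (c * b)]

/-- A proper stable subspace, in the abstract form. -/
lemma stable_codim {A : Subalgebra K (Module.End K H)} {V U : Submodule K H}
    (hU0 : U ≠ ⊥) (hU1 : U ≠ V) (hUV : U ≤ V) (hU : ∀ a ∈ A, ∀ x ∈ U, a x ∈ U)
    {E : Type*} [AddCommGroup E] [Module K E] [Module.Finite K E] {M : Submodule K E}
    (ψ : E →ₗ[K] (V →ₗ[K] V)) (hψ : Function.Surjective ψ)
    (hMA : ∀ m ∈ M, ∃ a ∈ A, ∀ x : V, a x = ψ m x) {e : E} (he : ψ e = LinearMap.id)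
    (heM : e ∉ M) : finrank K M + finrank K V ≤ finrank K E := by
  set U' : Submodule K V := U.comap V.subtype with hU'
  have e1 : finrank K U' = finrank K U :=
    LinearEquiv.finrank_eq (Submodule.comapSubtypeEquivOfLe hUV)
  set θ : (V →ₗ[K] V) →ₗ[K] (U' →ₗ[K] (V ⧸ U')) :=
    (LinearMap.compRight K U'.mkQ) ∘ₗ (LinearMap.lcomp K V U'.subtype) with hθ
  have hθa : ∀ (g : V →ₗ[K] V) (x : U'), θ g x = U'.mkQ (g x) := fun g x => rfl
  have hθs : Function.Surjective θ := by
    intro g
    obtain ⟨σ, hσ⟩ := U'.mkQ.exists_rightInverse_of_surjective (Submodule.range_mkQ U')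
    obtain ⟨h, hh⟩ := LinearMap.exists_extend (σ ∘ₗ g)
    refine ⟨h, LinearMap.ext fun x => ?_⟩
    rw [hθa]
    have h1 : h x = σ (g x) := congrArg (fun F => F x) hh
    rw [h1]
    exact congrArg (fun F => F (g x)) hσ
  have h1 := codim_surj' (M := M) (θ ∘ₗ ψ) (hθs.comp hψ) (fun m hm => by
    obtain ⟨a, ha, ham⟩ := hMA m hm
    apply LinearMap.ext
    intro x
    rw [LinearMap.comp_apply, hθa, LinearMap.zero_apply, Submodule.mkQ_apply,
      Submodule.Quotient.mk_eq_zero]
    change ((ψ m x : V) : H) ∈ U
    rw [← ham]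
    exact hU a ha _ x.2) heM (by
    apply LinearMap.ext
    intro x
    rw [LinearMap.comp_apply, hθa, he, LinearMap.zero_apply, Submodule.mkQ_apply,
      Submodule.Quotient.mk_eq_zero]
    exact x.2)
  have h2 : finrank K (U' →ₗ[K] (V ⧸ U')) = finrank K U * (finrank K V - finrank K U) := by
    rw [Module.finrank_linearMap, e1]
    congr 1
    have := Submodule.finrank_quotient_add_finrank U'
    omega
  have hlt : finrank K U < finrank K V :=
    Submodule.finrank_lt_finrank_of_lt (lt_of_le_of_ne hUV hU1)
  have hpos : 0 < finrank K U := by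
    rw [Nat.pos_iff_ne_zero]
    exact fun h2 => hU0 (Submodule.finrank_eq_zero.1 h2)
  have h3 := ineq hpos hlt
  omega

/-- The rank one operators on an irreducible subspace. -/
lemma rank_one [IsAlgClosed K] {A : Subalgebra K (Module.End K H)} {V : Submodule K H}
    (hV : ∀ a ∈ A, ∀ x ∈ V, a x ∈ V)
    (hirr : ∀ U ≤ V, (∀ a ∈ A, ∀ x ∈ U, a x ∈ U) → U = ⊥ ∨ U = V) (f : V →ₗ[K] K) (v : V) :
    ∃ a, ∃ ha : a ∈ A, a.restrict (hV a ha) = f.smulRight v := by
  obtain ⟨f', hf'⟩ := LinearMap.exists_extend f
  have hf : ∀ x : V, f' x = f x := fun x => congrArg (fun F => F x) hf'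
  obtain ⟨a, ha, h⟩ := burn A hV hirr (f := f'.smulRight (v : H)) (fun x _ => by
    rw [LinearMap.smulRight_apply]
    exact V.smul_mem _ v.2)
  refine ⟨a, ha, LinearMap.ext fun x => Subtype.ext ?_⟩
  rw [LinearMap.coe_restrict_apply, h x x.2, LinearMap.smulRight_apply, hf]
  rfl

/-- Every map is a sum of maps of rank one. -/
lemma mem_of_rank_one {V V' : Submodule K H} {M : Submodule K (V →ₗ[K] V')}
    (h : ∀ (f : V →ₗ[K] K) (w : V'), f.smulRight w ∈ M) (g : V →ₗ[K] V') : g ∈ M := by
  have b := Module.finBasis K V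
  have h1 : g = ∑ i, (b.coord i).smulRight (g (b i)) := by
    apply b.ext
    intro j
    rw [LinearMap.sum_apply, Finset.sum_eq_single j]
    · rw [LinearMap.smulRight_apply, Basis.coord_apply, Basis.repr_self, Finsupp.single_eq_same,
        one_smul]
    · intro i _ hi
      rw [LinearMap.smulRight_apply, Basis.coord_apply, Basis.repr_self,
        Finsupp.single_eq_of_ne (Ne.symm hi.symm), zero_smul]
    · intro h'; exact absurd (Finset.mem_univ j) h'
  rw [h1]
  exact Submodule.sum_mem _ fun i _ => h _ _

/-- **The codimension, first case**: the space `M` is a right module. -/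
theorem codim_right [IsAlgClosed K] (A : Subalgebra K (Module.End K H)) {V V' : Submodule K H}
    (hV : ∀ a ∈ A, ∀ x ∈ V, a x ∈ V) {M : Submodule K (V →ₗ[K] V')} {l : V' →ₗ[K] V}
    {lam : V →ₗ[K] V'} (hl : ∀ x, l (lam x) = x)
    (hMA : ∀ m ∈ M, ∃ a ∈ A, ∀ x : V, a x = l (m x))
    (hM : ∀ m ∈ M, ∀ a, ∀ ha : a ∈ A, m ∘ₗ (a.restrict (hV a ha)) ∈ M) (hlam : lam ∉ M) :
    finrank K M + finrank K V ≤ finrank K V * finrank K V' := by
  have hE : finrank K (V →ₗ[K] V') = finrank K V * finrank K V' := Module.finrank_linearMap _ _ _ _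
  rw [← hE]
  by_cases hirr : ∀ U ≤ V, (∀ a ∈ A, ∀ x ∈ U, a x ∈ U) → U = ⊥ ∨ U = V
  · -- the images of the elements of `M` do not span
    set S : Submodule K V' := Submodule.span K {y | ∃ m ∈ M, ∃ x, m x = y} with hS
    have hS1 : S ≠ ⊤ := by
      intro hS1
      apply hlam
      apply mem_of_rank_one
      intro f w
      have hw : w ∈ S := by rw [hS1]; trivial
      rw [hS] at hw
      induction hw using Submodule.span_induction with
      | mem y hy =>
        obtain ⟨m, hm, x, rfl⟩ := hy
        obtain ⟨a, ha, h⟩ := rank_one hV hirr f x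
        have h1 := hM m hm a ha
        rw [h] at h1
        have h2 : m ∘ₗ f.smulRight x = f.smulRight (m x) := by
          apply LinearMap.ext
          intro y
          rw [LinearMap.comp_apply, LinearMap.smulRight_apply, LinearMap.smulRight_apply, map_smul]
        rwa [h2] at h1
      | zero =>
        have : f.smulRight (0 : V') = 0 := by
          apply LinearMap.ext; intro y; rw [LinearMap.smulRight_apply, smul_zero]; rfl
        rw [this]
        exact M.zero_mem
      | add x y _ _ hx hy =>
        have : f.smulRight (x + y) = f.smulRight x + f.smulRight y := by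
          apply LinearMap.ext
          intro z
          rw [LinearMap.smulRight_apply, LinearMap.add_apply, LinearMap.smulRight_apply,
            LinearMap.smulRight_apply, smul_add]
        rw [this]
        exact M.add_mem hx hy
      | smul c x _ hx =>
        have : f.smulRight (c • x) = c • f.smulRight x := by
          apply LinearMap.ext
          intro z
          rw [LinearMap.smulRight_apply, LinearMap.smul_apply, LinearMap.smulRight_apply,
            smul_comm]
        rw [this]
        exact M.smul_mem c hx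
    obtain ⟨f, hf0, hf⟩ := Submodule.exists_le_ker_of_lt_top S (lt_top_iff_ne_top.2 hS1)
    have hsurj : Function.Surjective f := by
      rw [← LinearMap.range_eq_top]
      rcases eq_bot_or_eq_top (LinearMap.range f) with h | h
      · exact absurd (LinearMap.range_eq_bot.1 h) hf0
      · exact h
    have h1 := codim_surj (M := M) (LinearMap.compRight K f : (V →ₗ[K] V') →ₗ[K] (V →ₗ[K] K)) (by
      intro g
      obtain ⟨σ, hσ⟩ := f.exists_rightInverse_of_surjective (LinearMap.range_eq_top.2 hsurj)
      refine ⟨σ ∘ₗ g, ?_⟩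
      apply LinearMap.ext
      intro x
      exact congrArg (fun F => F (g x)) hσ) (fun m hm => by
      apply LinearMap.ext
      intro x
      exact hf (Submodule.subset_span ⟨m, hm, x, rfl⟩))
    rwa [show finrank K (V →ₗ[K] K) = finrank K V from Subspace.dual_finrank_eq] at h1
  · push Not at hirr
    obtain ⟨U, hUV, hU, hU0, hU1⟩ := hirr
    refine stable_codim (E := V →ₗ[K] V') hU0 hU1 hUV hU (LinearMap.compRight K l) ?_ hMA
      (e := lam) (LinearMap.ext hl) hlam
    intro g
    exact ⟨lam ∘ₗ g, LinearMap.ext fun x => hl (g x)⟩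

/-- **The codimension, second case**: the space `M` is a left module. -/
theorem codim_left [IsAlgClosed K] (A : Subalgebra K (Module.End K H)) {V V' : Submodule K H}
    (hV' : ∀ a ∈ A, ∀ x ∈ V', a x ∈ V') {M : Submodule K (V →ₗ[K] V')} {l : V' →ₗ[K] V}
    {lam : V →ₗ[K] V'} (hl : ∀ x, lam (l x) = x)
    (hMA : ∀ m ∈ M, ∃ a ∈ A, ∀ x : V', a x = m (l x))
    (hM : ∀ m ∈ M, ∀ a, ∀ ha : a ∈ A, (a.restrict (hV' a ha)) ∘ₗ m ∈ M) (hlam : lam ∉ M) :
    finrank K M + finrank K V' ≤ finrank K V * finrank K V' := by
  have hE : finrank K (V →ₗ[K] V') = finrank K V * finrank K V' := Module.finrank_linearMap _ _ _ _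
  rw [← hE]
  by_cases hirr : ∀ U ≤ V', (∀ a ∈ A, ∀ x ∈ U, a x ∈ U) → U = ⊥ ∨ U = V'
  · -- the elements of `M` have a common zero
    set S : Submodule K (Dual K V) :=
      Submodule.span K {y | ∃ m ∈ M, ∃ f : Dual K V', f ∘ₗ m = y} with hS
    have hS1 : S ≠ ⊤ := by
      intro hS1
      apply hlam
      apply mem_of_rank_one
      intro f w
      have hf : f ∈ S := by rw [hS1]; trivial
      rw [hS] at hf
      induction hf using Submodule.span_induction with
      | mem y hy =>
        obtain ⟨m, hm, g, rfl⟩ := hy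
        obtain ⟨a, ha, h⟩ := rank_one hV' hirr g w
        have h1 := hM m hm a ha
        rw [h] at h1
        have h2 : (g.smulRight w) ∘ₗ m = (g ∘ₗ m : V →ₗ[K] K).smulRight w := by
          apply LinearMap.ext
          intro y
          rw [LinearMap.comp_apply, LinearMap.smulRight_apply, LinearMap.smulRight_apply]
          rfl
        rwa [h2] at h1
      | zero =>
        have : (0 : V →ₗ[K] K).smulRight w = 0 := by
          apply LinearMap.ext; intro y; rw [LinearMap.smulRight_apply]; simp
        rw [this]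
        exact M.zero_mem
      | add x y _ _ hx hy =>
        have : (x + y : V →ₗ[K] K).smulRight w = x.smulRight w + y.smulRight w := by
          apply LinearMap.ext
          intro z
          rw [LinearMap.smulRight_apply, LinearMap.add_apply, LinearMap.add_apply,
            LinearMap.smulRight_apply, LinearMap.smulRight_apply, add_smul]
        rw [this]
        exact M.add_mem hx hy
      | smul c x _ hx =>
        have : (c • x : V →ₗ[K] K).smulRight w = c • x.smulRight w := by
          apply LinearMap.ext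
          intro z
          rw [LinearMap.smulRight_apply, LinearMap.smul_apply, LinearMap.smul_apply,
            LinearMap.smulRight_apply, smul_assoc]
        rw [this]
        exact M.smul_mem c hx
    obtain ⟨F, hF0, hF⟩ := Submodule.exists_le_ker_of_lt_top S (lt_top_iff_ne_top.2 hS1)
    obtain ⟨v, hv⟩ := (Module.evalEquiv K V).surjective F
    have hv0 : v ≠ 0 := by
      rintro rfl
      rw [map_zero] at hv
      exact hF0 hv.symm
    have hmv : ∀ m ∈ M, m v = 0 := by
      intro m hm
      rw [← Module.forall_dual_apply_eq_zero_iff K]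
      intro f
      have h1 : F (f ∘ₗ m) = 0 := hF (Submodule.subset_span ⟨m, hm, f, rfl⟩)
      rw [← hv] at h1
      exact h1
    obtain ⟨f, hf⟩ : ∃ f : Dual K V, f v ≠ 0 := by
      by_contra hcon
      push Not at hcon
      exact hv0 ((Module.forall_dual_apply_eq_zero_iff K v).1 hcon)
    exact codim_surj (M := M) (LinearMap.applyₗ v : (V →ₗ[K] V') →ₗ[K] V') (fun w =>
      ⟨f.smulRight ((f v)⁻¹ • w), by
        rw [LinearMap.applyₗ_apply_apply, LinearMap.smulRight_apply, smul_smul,
          mul_inv_cancel₀ hf, one_smul]⟩) hmv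
  · push Not at hirr
    obtain ⟨U, hUV, hU, hU0, hU1⟩ := hirr
    refine stable_codim (E := V →ₗ[K] V') hU0 hU1 hUV hU (LinearMap.lcomp K V' l) ?_ hMA
      (e := lam) (LinearMap.ext hl) hlam
    intro g
    exact ⟨g ∘ₗ lam, LinearMap.ext fun x => by
      change g (lam (l x)) = g x
      rw [hl]⟩

end Pool.Agent.Q55.Gb
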