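import Pool.Agent.Q55.Gp.JSum
import Pool.Agent.Q55.Gb.Lam
import Pool.Agent.Q55.Gb.Lin
import Pool.Agent.Y133.Half.PairPow

/-!
# Correspondences of negative degree and the Frobenius endomorphisms
-/

set_option autoImplicit false
set_option linter.unusedSectionVars false

open CategoryTheory AlgebraicGeometry
open scoped TensorProduct

universe u v

namespace Pool.Agent.Q55.Gb

open Module
open Pool.Agent.H914 Pool.Agent.H914.VarClass Pool.Agent.H914.VarClass.Obj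
  Pool.Agent.H914.WeilCohomology Pool.Agent.W534 Pool.Agent.Y133.Half Pool.Agent.W552
  Pool.Agent.H281R3.HT Pool.Agent.TH132.P Pool.Agent.Q55.Gp Pool.Agent.H447

variable {k : Type u} [Field k] {𝒱 : VarClass k} {ops : CycleOps 𝒱}
  {W : WeilCohomology.{u, v} ops} {X Y Z : 𝒱.Obj} {p : ℕ}

variable (Φ : FrobSystem W p)

/-- The levels of `X` and `X × X`, for a large finite field, with conditions in the codimension `c`
on `X × X`. -/
structure LevC (X : 𝒱.Obj) (c s s' : ℕ) : Prop extends Lev Φ X s s' where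
  algc : ∀ z ∈ spanCycles W (X.prod X) (c : ℕ),
    frob Φ (X.prod X) s' z = ((card Φ X s : W.K) ^ c) • z
  stc : genTate Φ (X.prod X) s' c = genT Φ (X.prod X) c
  div : ∀ z ∈ spanCycles W X (1 : ℕ), frob Φ X s z = (card Φ X s : W.K) • z
  stX : ∀ j ≤ X.dim, genTate Φ X s j = genT Φ X j

lemma exists_lev_mul (X : 𝒱.Obj) {N : ℕ} (hN : 0 < N) : ∃ t, 0 < t ∧ ∀ s, 0 < s → t ∣ s →
    ∃ s', Lev Φ X s s' ∧ N ∣ s' ∧ N ∣ s := by
  obtain ⟨A, B, B', hA, hB, hB', e1, e2, h1⟩ := exists_levels Φ X X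
  have hBB : B' = B := Nat.eq_of_mul_eq_mul_left (Φ.e_pos X) (by rw [← e1, e2])
  subst hBB
  obtain ⟨t₁, ht₁, h2⟩ := exists_span_eig Φ (X.prod X) X.dim
  obtain ⟨t₂, ht₂, h3⟩ := genT_spec Φ (X.prod X) X.dim
  refine ⟨B' * (t₁ * t₂ * N), Nat.mul_pos hB (Nat.mul_pos (Nat.mul_pos ht₁ ht₂) hN), ?_⟩
  rintro _ hs ⟨r, rfl⟩
  have hr : 0 < r := Nat.pos_of_mul_pos_left hs
  have hcard : card Φ (X.prod X) (A * (t₁ * t₂ * N * r)) =
      card Φ X (B' * (t₁ * t₂ * N) * r) := by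
    rw [mul_assoc B']
    exact Pool.Agent.TH132.P.card_eq e1 _
  refine ⟨A * (t₁ * t₂ * N * r), ⟨hs, Nat.mul_pos hA (Nat.mul_pos (Nat.mul_pos (Nat.mul_pos ht₁
    ht₂) hN) hr), hcard, ?_, ?_, ?_⟩, ⟨A * (t₁ * t₂ * r), by ring⟩, ⟨B' * (t₁ * t₂ * r), by ring⟩⟩
  · intro x y
    have h4 := h1 (t₁ * t₂ * N * r) (x ⊗ₜ[W.K] y)
    rw [TensorProduct.map_tmul] at h4
    rw [mul_assoc B']
    exact h4
  · intro c hc
    rw [← hcard]
    have h4 := span_eig_mul' Φ (h2 c hc) (A * (t₂ * N * r))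
    rwa [show A * (t₂ * N * r) * t₁ = A * (t₁ * t₂ * N * r) by ring] at h4
  · exact h3 _ (Nat.mul_pos hA (Nat.mul_pos (Nat.mul_pos (Nat.mul_pos ht₁ ht₂) hN) hr))
      ⟨A * t₁ * N * r, by ring⟩

lemma exists_levC (X : 𝒱.Obj) (c : ℕ) : ∃ t, 0 < t ∧ ∀ s, 0 < s → t ∣ s →
    ∃ s', LevC Φ X c s s' := by
  obtain ⟨t₁, ht₁, h1⟩ := exists_span_eig Φ (X.prod X) c
  obtain ⟨t₂, ht₂, h2⟩ := genT_spec Φ (X.prod X) c
  obtain ⟨t₃, ht₃, h3⟩ := exists_span_eig Φ X 1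
  choose r hr hr' using fun j => genT_spec Φ X j
  set R := ∏ j ∈ Finset.range (X.dim + 1), r j with hR
  have hRpos : 0 < R := Finset.prod_pos fun j _ => hr j
  obtain ⟨t, ht, h⟩ := exists_lev_mul Φ X (N := t₁ * t₂ * t₃ * R)
    (Nat.mul_pos (Nat.mul_pos (Nat.mul_pos ht₁ ht₂) ht₃) hRpos)
  refine ⟨t, ht, fun s hs hts => ?_⟩
  obtain ⟨s', L, ⟨m, hm⟩, ⟨n, hn⟩⟩ := h s hs hts
  refine ⟨s', { L with algc := ?_, stc := ?_, div := ?_, stX := ?_ }⟩
  · intro z hz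
    rw [← L.card_eq]
    have h4 := span_eig_mul' Φ (h1 z hz) (t₂ * t₃ * R * m)
    rwa [show t₂ * t₃ * R * m * t₁ = s' by rw [hm]; ring] at h4
  · exact h2 s' L.pos' ⟨t₁ * t₃ * R * m, by rw [hm]; ring⟩
  · intro z hz
    have h4 := span_eig_mul' Φ (h3 z hz) (t₁ * t₂ * R * n)
    rw [show t₁ * t₂ * R * n * t₃ = s by rw [hn]; ring, pow_one] at h4
    exact h4
  · intro j hj
    refine hr' j s hs ((Finset.dvd_prod_of_mem r ?_).trans ⟨t₁ * t₂ * t₃ * n, by rw [hn]; ring⟩)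
    rw [Finset.mem_range]
    omega

variable {Φ} {c s s' : ℕ}

lemma card_ne' (Φ : FrobSystem W p) (X : 𝒱.Obj) (s m : ℕ) : ((card Φ X s : W.K) ^ m) ≠ 0 :=
  pow_ne_zero _ (W534.card_ne Φ s)

namespace LevC

/-- The values of the operators given by generalised Tate classes. -/
lemma tate_gen (L : LevC Φ X c s s') {r : ℕ} (hcr : c + r = X.dim) {z : W.H (X.prod X)}
    (hz : z ∈ genTate Φ (X.prod X) s' c) {ν ν' : W.K} (hν : ν' * (card Φ X s : W.K) ^ r = ν)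
    {x : W.H X} (hx : x ∈ (frob Φ X s).maxGenEigenspace ν) :
    W.corr z x ∈ (frob Φ X s).maxGenEigenspace ν' := by
  set Q : W.K := (card Φ X s : W.K) ^ X.dim with hQ
  have h1 : z ∈ (frob Φ (X.prod X) s').maxGenEigenspace ((card Φ X s : W.K) ^ c) := by
    have h2 := hz.1
    rw [L.card_eq] at h2
    exact h2
  have h2 := gen_bilin (f := frob Φ (X.prod X) s') (g := frob Φ X s) (h := Q • frob Φ X s)
    (β := Y133.Half.corrL W X X) (fun a b => L.corr_frob a b) h1 hx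
  change W.corr z x ∈ (Q • frob Φ X s).maxGenEigenspace _ at h2
  rw [Module.End.mem_maxGenEigenspace] at h2 ⊢
  obtain ⟨n, hn⟩ := h2
  refine ⟨n, ?_⟩
  have e : (card Φ X s : W.K) ^ c * ν = Q * ν' := by
    rw [← hν, hQ, ← hcr, pow_add]
    ring
  rw [e, show Q • frob Φ X s - (Q * ν') • (1 : Module.End W.K (W.H X)) =
    Q • (frob Φ X s - ν' • 1) by rw [smul_sub, smul_smul], smul_pow, LinearMap.smul_apply] at hn
  exact (smul_eq_zero.1 hn).resolve_left (pow_ne_zero _ L.card_ne)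

/-- The degrees. -/
lemma corr_low {r : ℕ} (hcr : c + r = X.dim) {z : W.H (X.prod X)}
    (hz : z ∈ W.gr (X.prod X) (2 * c)) {i : ℕ} (hi : i < 2 * r) {x : W.H X} (hx : x ∈ W.gr X i) :
    W.corr z x = 0 := by
  have h1 := corr_mem_grZ hz hx
  rw [grZ_of_neg (by push_cast; omega)] at h1
  exact (Submodule.mem_bot _).1 h1

lemma corr_deg {r : ℕ} (hcr : c + r = X.dim) {z : W.H (X.prod X)}
    (hz : z ∈ W.gr (X.prod X) (2 * c)) {e i : ℕ} (hi : e + 2 * r = i) {x : W.H X}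
    (hx : x ∈ W.gr X i) : W.corr z x ∈ W.gr X e := by
  have h1 := corr_mem_grZ hz hx
  rwa [show ((2 * c : ℕ) : ℤ) + i - 2 * X.dim = (e : ℤ) by push_cast; omega, grZ_natCast] at h1

lemma tate_apply (L : LevC Φ X c s s') {r : ℕ} (hcr : c + r = X.dim) {z : W.H (X.prod X)}
    (hz : z ∈ genTate Φ (X.prod X) s' c) {ν ν' : W.K} (hν : ν' * (card Φ X s : W.K) ^ r = ν)
    {e i : ℕ} (hi : e + 2 * r = i) {x : W.H X} (hx : x ∈ VE Φ X s i ν) :
    W.corr z x ∈ VE Φ X s e ν' :=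
  ⟨L.tate_gen hcr hz hν hx.1, corr_deg hcr hz.2 hi hx.2⟩

lemma algc_le (L : LevC Φ X c s s') :
    spanCycles W (X.prod X) (c : ℕ) ≤ genTate Φ (X.prod X) s' c := by
  intro z hz
  refine mem_genTate_of_eig Φ (Pool.Agent.H914.span_gr hz) ?_
  rw [L.algc z hz, L.card_eq]

/-- External products of generalised eigenvectors. -/
lemma xpc_mem (L : LevC Φ X c s s') {i l : ℕ} {μ μ' : W.K} (hil : i + l = 2 * c)
    (hμ : μ * μ' = (card Φ X s : W.K) ^ c) {x y : W.H X} (hx : x ∈ VE Φ X s i μ)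
    (hy : y ∈ VE Φ X s l μ') : xp W x y ∈ genTate Φ (X.prod X) s' c := by
  refine ⟨?_, ?_⟩
  · have h2 := gen_bilin (f := frob Φ X s) (g := frob Φ X s) (h := frob Φ (X.prod X) s')
      (β := LinearMap.mk₂ W.K (fun x y : W.H X => xp W x y) xp_add_left
        (fun c x y => xp_smul_left c x y) xp_add_right (fun c x y => xp_smul_right c x y))
      (fun a b => (L.frob_xp a b).symm) hx.1 hy.1
    rw [L.card_eq, ← hμ]
    exact h2
  · rw [← hil]
    exact W.mul_mem (W.map_mem _ hx.2) (W.map_mem _ hy.2)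

end LevC

/-! ## Algebraic operators of degree `-2r` -/

/-- Multiplication by an algebraic class. -/
lemma op_mulLeft {a : W.H X} (ha : a ∈ algSpan W X) :
    LinearMap.mulLeft W.K a ∈ (algSys W).Op X X := by
  have h1 : W.push (𝟙 X) ∘ₗ LinearMap.mulLeft W.K a ∈ (algSys W).Op X X :=
    Sys.Op.pushMul (S := algSys W) (𝟙 X) ha
  have h2 : W.push (𝟙 X) ∘ₗ LinearMap.mulLeft W.K a = LinearMap.mulLeft W.K a := by
    apply LinearMap.ext
    intro x
    rw [LinearMap.comp_apply, W.push_id]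
  rwa [h2] at h1

/-- The operators of degree `-2r` given by algebraic classes. -/
def DegOp (W : WeilCohomology.{u, v} ops) (X : 𝒱.Obj) (r : ℕ) (u : Module.End W.K (W.H X)) :
    Prop :=
  u ∈ (algSys W).Op X X ∧ IsHom (W.gr X) (-(2 * (r : ℤ))) u

lemma degOp_corr {r : ℕ} (hcr : c + r = X.dim) {z : W.H (X.prod X)}
    (hz : z ∈ spanCycles W (X.prod X) (c : ℕ)) : DegOp W X r (W.corr z) := by
  refine ⟨Sys.Op.corr (span_le_alg hz), ?_⟩
  intro i x hx
  by_cases h0 : 0 ≤ i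
  · lift i to ℕ using h0
    rw [grZ_natCast] at hx
    have h1 := corr_mem_grZ (Pool.Agent.H914.span_gr hz) hx
    rwa [show ((2 * c : ℕ) : ℤ) + i - 2 * X.dim = (i : ℤ) + -(2 * (r : ℤ)) by push_cast; omega]
      at h1
  · rw [grZ_of_neg (by omega), Submodule.mem_bot] at hx
    rw [hx, map_zero]
    exact Submodule.zero_mem _

lemma exists_of_degOp {r : ℕ} (hcr : c + r = X.dim) {u : Module.End W.K (W.H X)}
    (hu : DegOp W X r u) : ∃ z ∈ spanCycles W (X.prod X) (c : ℕ), W.corr z = u := by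
  obtain ⟨z, hz, rfl⟩ := Sys.mem_Op.1 hu.1
  refine ⟨z, algSpan_gr hz ?_, rfl⟩
  apply gr_of_corr
  intro i a ha
  have h2 := hu.2 i a (by rw [grZ_natCast]; exact ha)
  rwa [show (i : ℤ) + -(2 * (r : ℤ)) = ((2 * c : ℕ) : ℤ) + i - 2 * X.dim by push_cast; omega] at h2

lemma isHom_zero_of_AA {a : Module.End W.K (W.H X)} (ha : a ∈ AA W X) : IsHom (W.gr X) 0 a := by
  intro i x hx
  by_cases h0 : 0 ≤ i
  · lift i to ℕ using h0
    rw [grZ_natCast] at hx
    rw [add_zero, grZ_natCast]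
    exact (mem_AA.1 ha).2 i x hx
  · rw [grZ_of_neg (by omega), Submodule.mem_bot] at hx
    rw [hx, map_zero]
    exact Submodule.zero_mem _

lemma DegOp.mul_AA {r : ℕ} {u a : Module.End W.K (W.H X)} (hu : DegOp W X r u) (ha : a ∈ AA W X) :
    DegOp W X r (u * a) := by
  refine ⟨Sys.Op.comp hu.1 (mem_AA.1 ha).1, ?_⟩
  have := hu.2.mul (isHom_zero_of_AA ha)
  rwa [add_zero] at this

lemma DegOp.AA_mul {r : ℕ} {u a : Module.End W.K (W.H X)} (hu : DegOp W X r u) (ha : a ∈ AA W X) :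
    DegOp W X r (a * u) := by
  refine ⟨Sys.Op.comp (mem_AA.1 ha).1 hu.1, ?_⟩
  have := (isHom_zero_of_AA ha).mul hu.2
  rwa [zero_add] at this

lemma AA_of_isHom {a : Module.End W.K (W.H X)} (h : a ∈ (algSys W).Op X X)
    (h' : IsHom (W.gr X) 0 a) : a ∈ AA W X := by
  refine mem_AA.2 ⟨h, fun i x hx => ?_⟩
  have := h' i x (by rw [grZ_natCast]; exact hx)
  rwa [add_zero, grZ_natCast] at this

section

variable {D : X.Cycles} (hD : X.IsCyc 1 D)

include hD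

lemma cl_mem_alg : W.cl X D ∈ algSpan W X :=
  Submodule.subset_span (Set.mem_iUnion.2 ⟨1, ⟨D, hD, rfl⟩⟩)

lemma cl_mem_span : W.cl X D ∈ spanCycles W X (1 : ℕ) := mem_span_cl hD

/-- The Lefschetz operator. -/
lemma op_L_pow (r : ℕ) : LinearMap.mulLeft W.K (W.cl X D) ^ r ∈ (algSys W).Op X X :=
  Sys.Op.pow (op_mulLeft (cl_mem_alg hD)) r

lemma isHom_L : IsHom (W.gr X) 2 (LinearMap.mulLeft W.K (W.cl X D)) := by
  simpa using rop_opAlg.hom (rop_mulLeft (W := W) hD)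

lemma isHom_L_pow (r : ℕ) :
    IsHom (W.gr X) (2 * (r : ℤ)) (LinearMap.mulLeft W.K (W.cl X D) ^ r) := by
  have := (isHom_L (W := W) hD).pow r
  rwa [mul_comm] at this

lemma DegOp.L_mul {r : ℕ} {u : Module.End W.K (W.H X)} (hu : DegOp W X r u) :
    LinearMap.mulLeft W.K (W.cl X D) ^ r * u ∈ AA W X := by
  refine AA_of_isHom (Sys.Op.comp (op_L_pow hD r) hu.1) ?_
  have := (isHom_L_pow (W := W) hD r).mul hu.2
  rwa [add_neg_cancel] at this

lemma DegOp.mul_L {r : ℕ} {u : Module.End W.K (W.H X)} (hu : DegOp W X r u) :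
    u * LinearMap.mulLeft W.K (W.cl X D) ^ r ∈ AA W X := by
  refine AA_of_isHom (Sys.Op.comp hu.1 (op_L_pow hD r)) ?_
  have := hu.2.mul (isHom_L_pow (W := W) hD r)
  rwa [neg_add_cancel] at this

/-- The Frobenius endomorphism and the Lefschetz operator. -/
lemma LevC.frob_L (L : LevC Φ X c s s') (x : W.H X) :
    frob Φ X s (LinearMap.mulLeft W.K (W.cl X D) x) =
      (card Φ X s : W.K) • LinearMap.mulLeft W.K (W.cl X D) (frob Φ X s x) := by
  rw [LinearMap.mulLeft_apply, LinearMap.mulLeft_apply, frob_apply, frob_apply, map_mul]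
  have h1 := L.div _ (cl_mem_span hD)
  rw [frob_apply] at h1
  rw [h1, smul_mul_assoc]

end

end Pool.Agent.Q55.Gb
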